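import Pool.Agent.H42.ErgApprox
import Pool.Agent.H42.ErgInf

/-!
# Conjugacy classes are dense in the space of infinite mixing automorphisms

For every mixing (zero type) automorphism `T` of a standard nonatomic infinite sigma-finite
measure space, the conjugacy class of `T` is dense in the space `Mix_∞` of all mixing
automorphisms, for the metric `r_∞(S, T) = ρ_∞(S, T) + sup_{n > 0} d_w(S^n, T^n)`.
-/

open MeasureTheory Set Filter Topology Function
open scoped ENNReal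

namespace Pool.Agent.Results.MP_bfd36a_an.ConjDense

open Pool.Agent.H42.Erg

variable {X : Type*} [MeasurableSpace X]

/-- `Aut_∞`: the group of invertible measure-preserving transformations of `(X, μ)`, realised by
bijections `T` of `X` such that `T` and `T⁻¹` are measurable and preserve `μ`.  (On a standard
nonatomic space every transformation that is invertible modulo null sets agrees almost
everywhere with such a bijection, see `exists_mem_autInf_ae_eq` below; all quantities below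
depend only on the transformations modulo null sets.) -/
def AutInf (μ : Measure X) : Subgroup (Equiv.Perm X) where
  carrier := {T | MeasurePreserving (⇑T) μ μ ∧ MeasurePreserving (⇑T⁻¹) μ μ}
  mul_mem' := by
    rintro S T ⟨hS, hS'⟩ ⟨hT, hT'⟩
    refine ⟨hS.comp hT, ?_⟩
    rw [mul_inv_rev]
    exact hT'.comp hS'
  one_mem' := ⟨MeasurePreserving.id μ, by rw [inv_one]; exact MeasurePreserving.id μ⟩
  inv_mem' := by
    rintro T ⟨hT, hT'⟩
    exact ⟨hT', by rw [inv_inv]; exact hT⟩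

/-- `T` is mixing: `μ(T^n A ∩ B) → 0` for all sets `A`, `B` of finite measure. -/
def IsMixing (μ : Measure X) (T : Equiv.Perm X) : Prop :=
  ∀ A B : Set X, MeasurableSet A → MeasurableSet B → μ A < ∞ → μ B < ∞ →
    Tendsto (fun n : ℕ => μ ((T ^ n) '' A ∩ B)) atTop (𝓝 0)

/-- `Mix_∞`: the mixing elements of `Aut_∞`. -/
def MixInf (μ : Measure X) : Set (Equiv.Perm X) :=
  {T | T ∈ AutInf μ ∧ IsMixing μ T}

/-- The Halmos distance
`ρ_∞(S, T) = ∑_i 2^{-i} (μ(S A_i Δ T A_i) + μ(S⁻¹ A_i Δ T⁻¹ A_i))`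
attached to the sequence `A_1, A_2, …` (here indexed from `0`). -/
noncomputable def rhoInf (μ : Measure X) (A : ℕ → Set X) (S T : Equiv.Perm X) : ℝ≥0∞ :=
  ∑' i : ℕ, (2⁻¹ : ℝ≥0∞) ^ (i + 1) *
    (μ (symmDiff (S '' A i) (T '' A i)) + μ (symmDiff (⇑(S⁻¹) '' A i) (⇑(T⁻¹) '' A i)))

/-- The weak distance `d_w(S, T) = ∑_{i,j} 2^{-i-j} |μ(S A_i ∩ A_j) - μ(T A_i ∩ A_j)|`. -/
noncomputable def dWeak (μ : Measure X) (A : ℕ → Set X) (S T : Equiv.Perm X) : ℝ≥0∞ :=
  ∑' i : ℕ, ∑' j : ℕ, (2⁻¹ : ℝ≥0∞) ^ ((i + 1) + (j + 1)) *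
    ENNReal.ofReal |μ.real (S '' A i ∩ A j) - μ.real (T '' A i ∩ A j)|

/-- The distance `r_∞(S, T) = ρ_∞(S, T) + sup_{n > 0} d_w(S^n, T^n)`. -/
noncomputable def rInf (μ : Measure X) (A : ℕ → Set X) (S T : Equiv.Perm X) : ℝ≥0∞ :=
  rhoInf μ A S T + ⨆ n : ℕ, ⨆ _ : 0 < n, dWeak μ A (S ^ n) (T ^ n)

/-- Sanity check for `AutInf`: a transformation that is invertible modulo null sets agrees almost
everywhere with an element of `AutInf μ`. -/
theorem exists_mem_autInf_ae_eq [StandardBorelSpace X] {μ : Measure X} {f g : X → X}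
    (hf : MeasurePreserving f μ μ) (hg : MeasurePreserving g μ μ)
    (hgf : ∀ᵐ x ∂μ, g (f x) = x) (hfg : ∀ᵐ x ∂μ, f (g x) = x) :
    ∃ T ∈ AutInf μ, ⇑T =ᵐ[μ] f := by
  classical
  let N : Set X := {x | g (f x) = x ∧ f (g x) = x}
  have hNm : MeasurableSet N :=
    (measurableSet_eq_fun (hg.measurable.comp hf.measurable) measurable_id).inter
      (measurableSet_eq_fun (hf.measurable.comp hg.measurable) measurable_id)
  have hN : ∀ᵐ x ∂μ, x ∈ N := by
    filter_upwards [hgf, hfg] with x h1 h2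
    exact ⟨h1, h2⟩
  let G : Set X := (⋂ n : ℕ, (f^[n]) ⁻¹' N) ∩ ⋂ n : ℕ, (g^[n]) ⁻¹' N
  have hGm : MeasurableSet G :=
    (MeasurableSet.iInter fun n => (hf.measurable.iterate n) hNm).inter
      (MeasurableSet.iInter fun n => (hg.measurable.iterate n) hNm)
  have hGae : ∀ᵐ x ∂μ, x ∈ G := by
    have h1 : ∀ᵐ x ∂μ, ∀ n : ℕ, f^[n] x ∈ N := ae_all_iff.2 fun n =>
      (hf.iterate n).quasiMeasurePreserving.ae hN
    have h2 : ∀ᵐ x ∂μ, ∀ n : ℕ, g^[n] x ∈ N := ae_all_iff.2 fun n =>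
      (hg.iterate n).quasiMeasurePreserving.ae hN
    filter_upwards [h1, h2] with x h1 h2
    exact ⟨mem_iInter.2 h1, mem_iInter.2 h2⟩
  have hGf : ∀ x ∈ G, f x ∈ G := by
    rintro x ⟨h1, h2⟩
    rw [mem_iInter] at h1 h2
    have h0 : g (f x) = x := (h1 0).1
    refine ⟨mem_iInter.2 fun n => ?_, mem_iInter.2 fun n => ?_⟩
    · have := h1 (n + 1)
      rwa [mem_preimage, iterate_succ_apply] at this
    · cases n with
      | zero => exact h1 1
      | succ n =>
        rw [mem_preimage, iterate_succ_apply, h0]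
        exact h2 n
  have hGg : ∀ x ∈ G, g x ∈ G := by
    rintro x ⟨h1, h2⟩
    rw [mem_iInter] at h1 h2
    have h0 : f (g x) = x := (h1 0).2
    refine ⟨mem_iInter.2 fun n => ?_, mem_iInter.2 fun n => ?_⟩
    · cases n with
      | zero => exact h2 1
      | succ n =>
        rw [mem_preimage, iterate_succ_apply, h0]
        exact h1 n
    · have := h2 (n + 1)
      rwa [mem_preimage, iterate_succ_apply] at this
  have hG1 : ∀ x ∈ G, g (f x) = x := fun x hx => (mem_iInter.1 hx.1 0).1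
  have hG2 : ∀ x ∈ G, f (g x) = x := fun x hx => (mem_iInter.1 hx.1 0).2
  let T : Equiv.Perm X :=
    { toFun := fun x => if x ∈ G then f x else x
      invFun := fun x => if x ∈ G then g x else x
      left_inv := fun x => by
        by_cases hx : x ∈ G
        · simp [hx, hGf x hx, hG1 x hx]
        · simp [hx]
      right_inv := fun x => by
        by_cases hx : x ∈ G
        · simp [hx, hGg x hx, hG2 x hx]
        · simp [hx] }
  have hTf : ⇑T =ᵐ[μ] f := by
    filter_upwards [hGae] with x hx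
    exact if_pos hx
  have hTg : ⇑T⁻¹ =ᵐ[μ] g := by
    filter_upwards [hGae] with x hx
    exact if_pos hx
  have hTm : Measurable ⇑T := Measurable.ite hGm hf.measurable measurable_id
  have hTm' : Measurable ⇑T⁻¹ := Measurable.ite hGm hg.measurable measurable_id
  refine ⟨T, ⟨⟨hTm, ?_⟩, ⟨hTm', ?_⟩⟩, hTf⟩
  · rw [Measure.map_congr hTf]; exact hf.map_eq
  · rw [Measure.map_congr hTg]; exact hg.map_eq

theorem zpow_mp {μ : Measure X} {T : Equiv.Perm X} (hT : T ∈ AutInf μ) (n : ℤ) :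
    MeasurePreserving (⇑(T ^ n)) μ μ :=
  ((AutInf μ).zpow_mem hT n).1

theorem measure_image {μ : Measure X} {T : Equiv.Perm X} (hT : T ∈ AutInf μ) {A : Set X}
    (hA : MeasurableSet A) : μ (T '' A) = μ A := by
  rw [Equiv.image_eq_preimage_symm]
  exact hT.2.measure_preimage hA.nullMeasurableSet

theorem measurableSet_image' {μ : Measure X} {T : Equiv.Perm X} (hT : T ∈ AutInf μ) {A : Set X}
    (hA : MeasurableSet A) : MeasurableSet (T '' A) := by
  rw [Equiv.image_eq_preimage_symm]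
  exact hT.2.measurable hA

theorem zeroType_of_mem {μ : Measure X} {T : Equiv.Perm X} (hT : T ∈ MixInf μ) :
    ZeroType μ T := by
  intro A B hA hB hAf hBf ε hε
  have h1 := hT.2 A B hA hB (lt_top_iff_ne_top.2 hAf) (lt_top_iff_ne_top.2 hBf)
  have h2 := hT.2 B A hB hA (lt_top_iff_ne_top.2 hBf) (lt_top_iff_ne_top.2 hAf)
  rw [ENNReal.tendsto_nhds_zero] at h1 h2
  obtain ⟨N1, hN1⟩ := eventually_atTop.1 (h1 ε (pos_iff_ne_zero.2 hε))
  obtain ⟨N2, hN2⟩ := eventually_atTop.1 (h2 ε (pos_iff_ne_zero.2 hε))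
  refine ⟨max N1 N2, ?_⟩
  intro n hn
  have hmem : ∀ k : ℕ, T ^ k ∈ AutInf μ := fun k => (AutInf μ).pow_mem hT.1 k
  rcases le_total 0 n with h0 | h0
  · rw [abs_of_nonneg h0] at hn
    have h3 := hN1 n.toNat (by omega)
    have h4 : μ (A ∩ (T ^ n) ⁻¹' B) = μ ((T ^ n.toNat) '' A ∩ B) := by
      have h5 : (T ^ n) = T ^ n.toNat := by
        rw [← zpow_natCast, Int.toNat_of_nonneg h0]
      rw [h5, ← measure_image (hmem n.toNat) (hA.inter ((hmem n.toNat).1.measurable hB)),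
        image_inter_preimage]
    rw [h4]; exact h3
  · rw [abs_of_nonpos h0] at hn
    have h3 := hN2 (-n).toNat (by omega)
    have h4 : μ (A ∩ (T ^ n) ⁻¹' B) = μ ((T ^ (-n).toNat) '' B ∩ A) := by
      have h5 : (T ^ n) = (T ^ (-n).toNat)⁻¹ := by
        rw [← zpow_natCast, Int.toNat_of_nonneg (by omega), zpow_neg, inv_inv]
      rw [h5, inter_comm, Equiv.image_eq_preimage_symm]
      rfl
    rw [h4]; exact h3

theorem conj_mem {μ : Measure X} {T R : Equiv.Perm X} (hT : T ∈ MixInf μ) (hR : R ∈ AutInf μ) :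
    R⁻¹ * T * R ∈ MixInf μ := by
  refine ⟨(AutInf μ).mul_mem ((AutInf μ).mul_mem ((AutInf μ).inv_mem hR) hT.1) hR, ?_⟩
  intro A B hA hB hAf hBf
  have h1 := hT.2 (R '' A) (R '' B) (measurableSet_image' hR hA) (measurableSet_image' hR hB)
    (by rwa [measure_image hR hA]) (by rwa [measure_image hR hB])
  refine h1.congr fun n => ?_
  have h2 : (R⁻¹ * T * R) ^ n = R⁻¹ * T ^ n * R := by
    have h1 : (R⁻¹ * T * R) = R⁻¹ * T * (R⁻¹)⁻¹ := by rw [inv_inv]
    rw [h1, conj_pow, inv_inv]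
  have hmem : T ^ n ∈ AutInf μ := (AutInf μ).pow_mem hT.1 n
  have h3 : ((R⁻¹ * T * R) ^ n) '' A ∩ B = ⇑(R⁻¹) '' ((T ^ n) '' (R '' A) ∩ R '' B) := by
    rw [image_inter (R⁻¹).injective, h2]
    congr 1
    · rw [image_image, image_image]; rfl
    · rw [image_image]; simp
  rw [h3, measure_image ((AutInf μ).inv_mem hR)]
  exact (measurableSet_image' hmem (measurableSet_image' hR hA)).inter (measurableSet_image' hR hB)

/-- Finiteness of `ρ_∞` is equivalent to summability of `2^{-i} μ(A_i)`; the direction we need. -/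
theorem tsum_ne_top [StandardBorelSpace X] {μ : Measure X} [SigmaFinite μ]
    [NullSingletonClass μ] (hμ : μ univ = ∞) {A : ℕ → Set X} (hA : ∀ i, MeasurableSet (A i))
    (hAfin : ∀ i, μ (A i) < ∞) (hρ : ∀ S ∈ AutInf μ, ∀ T ∈ AutInf μ, rhoInf μ A S T < ∞)
    {T : Equiv.Perm X} (hT : T ∈ MixInf μ) :
    ∑' i : ℕ, (2⁻¹ : ℝ≥0∞) ^ (i + 1) * μ (A i) ≠ ∞ := by
  obtain ⟨G, H, hG1, hG2, hH1, hH2, hGH⟩ := exists_gap_pair hμ T (zpow_mp hT.1)
    ((zeroType_of_mem hT).aperiodic (zpow_mp hT.1))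
  have h1 := hρ 1 (AutInf μ).one_mem G ⟨hG1, hG2⟩
  have h2 := hρ 1 (AutInf μ).one_mem H ⟨hH1, hH2⟩
  refine (lt_of_le_of_lt ?_ (ENNReal.add_lt_top.2 ⟨h1, h2⟩)).ne
  rw [rhoInf, rhoInf, ← ENNReal.tsum_add]
  refine ENNReal.tsum_le_tsum fun i => ?_
  rw [← mul_add]
  refine mul_le_mul' le_rfl ?_
  refine (hGH (A i) (hA i) (hAfin i).ne).trans ?_
  simp only [Equiv.Perm.coe_one, image_id]
  exact add_le_add le_self_add le_self_add

theorem ofReal_abs_sub_le {x y z : ℝ≥0∞} (hx : x ≠ ∞) (hy : y ≠ ∞) (h1 : x ≤ y + z)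
    (h2 : y ≤ x + z) : ENNReal.ofReal |x.toReal - y.toReal| ≤ z := by
  rcases eq_or_ne z ∞ with rfl | hz
  · exact le_top
  apply ENNReal.ofReal_le_of_le_toReal
  have h3 := ENNReal.toReal_mono (ENNReal.add_ne_top.2 ⟨hy, hz⟩) h1
  have h4 := ENNReal.toReal_mono (ENNReal.add_ne_top.2 ⟨hx, hz⟩) h2
  rw [ENNReal.toReal_add hy hz] at h3
  rw [ENNReal.toReal_add hx hz] at h4
  rw [abs_le]
  constructor <;> linarith

theorem tsum_weights : ∑' i : ℕ, (2⁻¹ : ℝ≥0∞) ^ (i + 1) = 1 := by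
  rw [ENNReal.tsum_geometric_add_one, ENNReal.one_sub_inv_two, inv_inv]
  exact ENNReal.inv_mul_cancel (by simp) (by simp)

/-- Symmetric difference of images under two automorphisms agreeing off a small set. -/
theorem measure_symmDiff_image_le {μ : Measure X} {S T : Equiv.Perm X} (hS : S ∈ AutInf μ)
    (hT : T ∈ AutInf μ) {A B : Set X} (hAB : A ⊆ B) {η : ℝ≥0∞}
    (hm : MeasurableSet {x | x ∈ B ∧ T x ≠ S x})
    (h : μ {x | x ∈ B ∧ T x ≠ S x} ≤ η) :
    μ (symmDiff (S '' A) (T '' A)) ≤ 2 * η := by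
  have hsub : symmDiff (S '' A) (T '' A) ⊆
      S '' {x | x ∈ B ∧ T x ≠ S x} ∪ T '' {x | x ∈ B ∧ T x ≠ S x} := by
    rintro y (⟨⟨x, hx, rfl⟩, hy⟩ | ⟨⟨x, hx, rfl⟩, hy⟩)
    · left
      exact ⟨x, ⟨hAB hx, fun h => hy ⟨x, hx, h⟩⟩, rfl⟩
    · right
      exact ⟨x, ⟨hAB hx, fun h => hy ⟨x, hx, h.symm⟩⟩, rfl⟩
  refine (measure_mono hsub).trans ((measure_union_le _ _).trans ?_)
  rw [measure_image hS hm, measure_image hT hm, two_mul]
  exact add_le_add h h

theorem exists_tail (f : ℕ → ℝ≥0∞) (hsum : ∑' i : ℕ, (2⁻¹ : ℝ≥0∞) ^ (i + 1) * f i ≠ ∞)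
    {η : ℝ≥0∞} (hη0 : η ≠ 0) :
    ∃ I : ℕ, ∑' i : ℕ, (2⁻¹ : ℝ≥0∞) ^ (i + 1) * (if I ≤ i then f i else 0) ≤ η := by
  have h1 := ENNReal.tendsto_sum_nat_add (fun i => (2⁻¹ : ℝ≥0∞) ^ (i + 1) * f i) hsum
  rw [ENNReal.tendsto_nhds_zero] at h1
  obtain ⟨I, hI⟩ := (h1 η (pos_iff_ne_zero.2 hη0)).exists
  refine ⟨I, ?_⟩
  have h2 := Summable.sum_add_tsum_nat_add'
    (f := fun i : ℕ => (2⁻¹ : ℝ≥0∞) ^ (i + 1) * (if I ≤ i then f i else 0)) (k := I)
    ENNReal.summable
  rw [← h2, Finset.sum_eq_zero, zero_add]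
  · refine le_trans (ENNReal.tsum_le_tsum fun k => ?_) hI
    simp
  · intro i hi
    rw [Finset.mem_range] at hi
    simp [not_le.2 hi]

/-- Bound for the Halmos part from termwise bounds. -/
theorem rhoInf_le {μ : Measure X} {A : ℕ → Set X} {S T : Equiv.Perm X} {η : ℝ≥0∞}
    {t : ℕ → ℝ≥0∞} (ht : ∑' i : ℕ, (2⁻¹ : ℝ≥0∞) ^ (i + 1) * t i ≤ η)
    (hterm : ∀ i, μ (symmDiff (S '' A i) (T '' A i)) +
        μ (symmDiff (⇑(S⁻¹) '' A i) (⇑(T⁻¹) '' A i)) ≤ 4 * η + 4 * t i) :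
    rhoInf μ A S T ≤ 8 * η := by
  have e : ∀ w : ℝ≥0∞, ∀ x : ℝ≥0∞, w * (4 * η + 4 * x) = w * (4 * η) + 4 * (w * x) := by
    intro w x; ring
  calc rhoInf μ A S T ≤ ∑' i : ℕ, (2⁻¹ : ℝ≥0∞) ^ (i + 1) * (4 * η + 4 * t i) :=
        ENNReal.tsum_le_tsum fun i => mul_le_mul' le_rfl (hterm i)
    _ = ∑' i : ℕ, ((2⁻¹ : ℝ≥0∞) ^ (i + 1) * (4 * η) + 4 * ((2⁻¹ : ℝ≥0∞) ^ (i + 1) * t i)) :=
        tsum_congr fun i => e _ _
    _ = 4 * η + 4 * ∑' i : ℕ, ((2⁻¹ : ℝ≥0∞) ^ (i + 1) * t i) := by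
        rw [ENNReal.tsum_add, ENNReal.tsum_mul_right, tsum_weights, one_mul,
          ENNReal.tsum_mul_left]
    _ ≤ 4 * η + 4 * η := add_le_add le_rfl (mul_le_mul' le_rfl ht)
    _ = 8 * η := by ring

/-- Bound for the weak part from termwise bounds. -/
theorem dWeak_le {μ : Measure X} {A : ℕ → Set X} {S T : Equiv.Perm X} {η : ℝ≥0∞}
    {t : ℕ → ℝ≥0∞} (ht : ∑' i : ℕ, (2⁻¹ : ℝ≥0∞) ^ (i + 1) * t i ≤ η)
    (hterm : ∀ i j, ENNReal.ofReal |μ.real (S '' A i ∩ A j) - μ.real (T '' A i ∩ A j)| ≤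
      η + t i + t j) :
    dWeak μ A S T ≤ 3 * η := by
  have e : ∀ w v x y : ℝ≥0∞, w * v * (η + x + y) = w * (v * (η + x) + v * y) := by
    intro w v x y; ring
  have e' : ∀ w x : ℝ≥0∞, w * (η + x + η) = w * (2 * η) + w * x := by
    intro w x; ring
  have hinner : ∀ i : ℕ, ∑' j : ℕ, (2⁻¹ : ℝ≥0∞) ^ ((i + 1) + (j + 1)) * (η + t i + t j) =
      (2⁻¹ : ℝ≥0∞) ^ (i + 1) * (η + t i + ∑' j : ℕ, (2⁻¹ : ℝ≥0∞) ^ (j + 1) * t j) := by
    intro i
    have h1 : ∀ j : ℕ, (2⁻¹ : ℝ≥0∞) ^ ((i + 1) + (j + 1)) * (η + t i + t j) =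
        (2⁻¹ : ℝ≥0∞) ^ (i + 1) * ((2⁻¹ : ℝ≥0∞) ^ (j + 1) * (η + t i) +
          (2⁻¹ : ℝ≥0∞) ^ (j + 1) * t j) := by
      intro j
      rw [pow_add]
      exact e _ _ _ _
    rw [tsum_congr h1, ENNReal.tsum_mul_left, ENNReal.tsum_add, ENNReal.tsum_mul_right,
      tsum_weights, one_mul]
  calc dWeak μ A S T
      ≤ ∑' i : ℕ, ∑' j : ℕ, (2⁻¹ : ℝ≥0∞) ^ ((i + 1) + (j + 1)) * (η + t i + t j) :=
        ENNReal.tsum_le_tsum fun i => ENNReal.tsum_le_tsum fun j =>
          mul_le_mul' le_rfl (hterm i j)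
    _ = ∑' i : ℕ, (2⁻¹ : ℝ≥0∞) ^ (i + 1) *
          (η + t i + ∑' j : ℕ, (2⁻¹ : ℝ≥0∞) ^ (j + 1) * t j) := tsum_congr hinner
    _ ≤ ∑' i : ℕ, (2⁻¹ : ℝ≥0∞) ^ (i + 1) * (η + t i + η) :=
        ENNReal.tsum_le_tsum fun i => mul_le_mul' le_rfl (add_le_add le_rfl ht)
    _ = ∑' i : ℕ, ((2⁻¹ : ℝ≥0∞) ^ (i + 1) * (2 * η) + (2⁻¹ : ℝ≥0∞) ^ (i + 1) * t i) :=
        tsum_congr fun i => e' _ _
    _ = 2 * η + ∑' i : ℕ, (2⁻¹ : ℝ≥0∞) ^ (i + 1) * t i := by
        rw [ENNReal.tsum_add, ENNReal.tsum_mul_right, tsum_weights, one_mul]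
    _ ≤ 2 * η + η := add_le_add le_rfl ht
    _ = 3 * η := by ring

/-- **Main theorem.**  Let `(X, μ)` be a standard Borel space with a sigma-finite infinite measure
vanishing on points, and let `A_1, A_2, …` be measurable sets of finite measure such that
`ρ_∞` is finite-valued on `Aut_∞` (as a metric has to be).  Then for every mixing `T`
the conjugacy class `{R⁻¹ T R : R ∈ Aut_∞}` is contained in `Mix_∞` and dense in
`(Mix_∞, r_∞)`. -/
theorem result {X : Type*} [MeasurableSpace X] [StandardBorelSpace X] (μ : Measure X)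
    [SigmaFinite μ] [NullSingletonClass μ] (hμ : μ univ = ∞) (A : ℕ → Set X)
    (hA : ∀ i, MeasurableSet (A i)) (hAfin : ∀ i, μ (A i) < ∞)
    (hρ : ∀ S ∈ AutInf μ, ∀ T ∈ AutInf μ, rhoInf μ A S T < ∞)
    (T : Equiv.Perm X) (hT : T ∈ MixInf μ) :
    (∀ R ∈ AutInf μ, R⁻¹ * T * R ∈ MixInf μ) ∧
    ∀ S ∈ MixInf μ, ∀ ε : ℝ≥0∞, 0 < ε → ∃ R ∈ AutInf μ, rInf μ A S (R⁻¹ * T * R) < ε := by
  classical
  refine ⟨fun R hR => conj_mem hT hR, ?_⟩
  intro S hS ε hε
  have hsum := tsum_ne_top hμ hA hAfin hρ hT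
  -- the small parameter
  obtain ⟨η, hη0, h11⟩ : ∃ η : ℝ≥0∞, η ≠ 0 ∧ 11 * η < ε := by
    have hη0 : min (ε / 12) 1 ≠ 0 := (lt_min (ENNReal.div_pos hε.ne' (by simp)) one_pos).ne'
    have hηt : min (ε / 12) 1 ≠ ∞ := ne_top_of_le_ne_top ENNReal.one_ne_top (min_le_right _ _)
    refine ⟨min (ε / 12) 1, hη0, ?_⟩
    have h12 : 12 * min (ε / 12) 1 ≤ ε := by
      calc 12 * min (ε / 12) 1 ≤ 12 * (ε / 12) := by gcongr; exact min_le_left _ _
        _ = ε := ENNReal.mul_div_cancel (by simp) (by simp)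
    refine lt_of_lt_of_le ?_ h12
    exact ENNReal.mul_lt_mul_left hη0 hηt (by norm_num)
  -- the tail
  obtain ⟨I, hI⟩ := exists_tail _ hsum hη0
  obtain ⟨t, ht1, ht2, hI⟩ : ∃ t : ℕ → ℝ≥0∞, (∀ i, I ≤ i → t i = μ (A i)) ∧
      (∀ i, i < I → t i = 0) ∧ ∑' i : ℕ, (2⁻¹ : ℝ≥0∞) ^ (i + 1) * t i ≤ η :=
    ⟨fun i => if I ≤ i then μ (A i) else 0, fun i hi => if_pos hi,
      fun i hi => if_neg (not_le.2 hi), hI⟩
  let B : Set X := ⋃ i ∈ Finset.range I, A i
  have hBm : MeasurableSet B := Finset.measurableSet_biUnion _ fun i _ => hA i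
  have hBfin : μ B ≠ ∞ := by
    refine (lt_of_le_of_lt (measure_biUnion_finset_le _ _) (ENNReal.sum_lt_top.2 ?_)).ne
    intro i _
    exact hAfin i
  have hAB : ∀ i, i < I → A i ⊆ B := fun i hi =>
    subset_biUnion_of_mem (u := fun i => A i) (Finset.mem_range.2 hi)
  obtain ⟨R, hR1, hR2, hR3, hR4⟩ := exists_conj_approx hμ S T (zpow_mp hS.1) (zpow_mp hT.1)
    (zeroType_of_mem hS) (zeroType_of_mem hT) hBm hBfin hη0
  have hR : R ∈ AutInf μ := ⟨hR1, hR2⟩
  refine ⟨R, hR, ?_⟩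
  have hT'mem : R⁻¹ * T * R ∈ AutInf μ := (conj_mem hT hR).1
  generalize R⁻¹ * T * R = T' at hR3 hR4 hT'mem ⊢
  have hdiffm : ∀ n : ℤ, MeasurableSet {x | x ∈ B ∧ (T' ^ n) x ≠ (S ^ n) x} := by
    intro n
    exact hBm.inter (measurableSet_eq_fun (zpow_mp hT'mem n).measurable
      (zpow_mp hS.1 n).measurable).compl
  -- bound for the Halmos part
  have hrho : rhoInf μ A S T' ≤ 8 * η := by
    refine rhoInf_le hI ?_
    intro i
    rcases lt_or_ge i I with hi | hi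
    · have e1 : μ (symmDiff (S '' A i) (T' '' A i)) ≤ 2 * η := by
        have h1 := hR3 1 (Or.inl rfl)
        have h2 := hdiffm 1
        rw [zpow_one, zpow_one] at h1 h2
        exact measure_symmDiff_image_le hS.1 hT'mem (hAB i hi) h2 h1
      have e2 : μ (symmDiff (⇑(S⁻¹) '' A i) (⇑(T'⁻¹) '' A i)) ≤ 2 * η := by
        have h1 := hR3 (-1) (Or.inr rfl)
        have h2 := hdiffm (-1)
        rw [zpow_neg_one, zpow_neg_one] at h1 h2
        exact measure_symmDiff_image_le ((AutInf μ).inv_mem hS.1) ((AutInf μ).inv_mem hT'mem)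
          (hAB i hi) h2 h1
      calc _ ≤ 2 * η + 2 * η := add_le_add e1 e2
        _ = 4 * η := by ring
        _ ≤ _ := le_self_add
    · have hti : t i = μ (A i) := ht1 i hi
      have e : ∀ U V : Equiv.Perm X, U ∈ AutInf μ → V ∈ AutInf μ →
          μ (symmDiff (U '' A i) (V '' A i)) ≤ 2 * t i := by
        intro U V hU hV
        calc _ ≤ μ (U '' A i ∪ V '' A i) := measure_mono symmDiff_subset_union
          _ ≤ μ (U '' A i) + μ (V '' A i) := measure_union_le _ _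
          _ = 2 * t i := by rw [measure_image hU (hA i), measure_image hV (hA i), hti, two_mul]
      calc _ ≤ 2 * t i + 2 * t i := add_le_add (e _ _ hS.1 hT'mem)
            (e _ _ ((AutInf μ).inv_mem hS.1) ((AutInf μ).inv_mem hT'mem))
        _ = 4 * t i := by ring
        _ ≤ _ := le_add_self
  -- bound for the weak part
  have hweak : ∀ n : ℕ, 0 < n → dWeak μ A (S ^ n) (T' ^ n) ≤ 3 * η := by
    intro n hn
    have hSn : S ^ n ∈ AutInf μ := (AutInf μ).pow_mem hS.1 n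
    have hTn : T' ^ n ∈ AutInf μ := (AutInf μ).pow_mem hT'mem n
    have hfinite : ∀ (U : Equiv.Perm X) (i j : ℕ), μ (U '' A i ∩ A j) ≠ ∞ := fun U i j =>
      ne_top_of_le_ne_top (hAfin j).ne (measure_mono inter_subset_right)
    refine dWeak_le hI ?_
    intro i j
    rcases lt_or_ge i I with hi | hi
    · rcases lt_or_ge j I with hj | hj
      · have hgoal : ENNReal.ofReal |μ.real ((S ^ n) '' A i ∩ A j) -
            μ.real ((T' ^ n) '' A i ∩ A j)| ≤ η := by
          rcases hR4 n hn with h | ⟨h1, h2⟩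
          · -- the two powers agree up to a small set
            have hdm := hdiffm n
            rw [zpow_natCast, zpow_natCast] at hdm
            have key : ∀ U V : Equiv.Perm X, U ∈ AutInf μ →
                (∀ x, x ∈ A i → U x ≠ V x → x ∈ {x | x ∈ B ∧ (T' ^ n) x ≠ (S ^ n) x}) →
                μ (U '' A i ∩ A j) ≤ μ (V '' A i ∩ A j) + η := by
              intro U V hU hUV
              calc μ (U '' A i ∩ A j) ≤ μ ((V '' A i ∩ A j) ∪
                    U '' {x | x ∈ B ∧ (T' ^ n) x ≠ (S ^ n) x}) := by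
                    apply measure_mono
                    rintro _ ⟨⟨x, hx, rfl⟩, hxj⟩
                    by_cases hUx : U x = V x
                    · exact Or.inl ⟨⟨x, hx, hUx.symm⟩, hxj⟩
                    · exact Or.inr ⟨x, hUV x hx hUx, rfl⟩
                _ ≤ μ (V '' A i ∩ A j) + μ (U '' {x | x ∈ B ∧ (T' ^ n) x ≠ (S ^ n) x}) :=
                    measure_union_le _ _
                _ ≤ μ (V '' A i ∩ A j) + η := by
                    rw [measure_image hU hdm]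
                    exact add_le_add le_rfl h
            apply ofReal_abs_sub_le (hfinite _ _ _) (hfinite _ _ _)
            · exact key _ _ hSn fun x hx hne => ⟨hAB i hi hx, hne.symm⟩
            · exact key _ _ hTn fun x hx hne => ⟨hAB i hi hx, hne⟩
          · -- both correlations are small
            have key : ∀ U : Equiv.Perm X, U ∈ AutInf μ → μ {x | x ∈ B ∧ U x ∈ B} ≤ η →
                μ (U '' A i ∩ A j) ≤ η := by
              intro U hU hUB
              have hm : MeasurableSet {x | x ∈ B ∧ U x ∈ B} := hBm.inter (hU.1.measurable hBm)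
              calc μ (U '' A i ∩ A j) ≤ μ (U '' {x | x ∈ B ∧ U x ∈ B}) := by
                    apply measure_mono
                    rintro _ ⟨⟨x, hx, rfl⟩, hxj⟩
                    exact ⟨x, ⟨hAB i hi hx, hAB j hj hxj⟩, rfl⟩
                _ ≤ η := by rw [measure_image hU hm]; exact hUB
            apply ofReal_abs_sub_le (hfinite _ _ _) (hfinite _ _ _)
            · exact (key _ hSn h1).trans le_add_self
            · exact (key _ hTn h2).trans le_add_self
        refine hgoal.trans ?_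
        rw [add_assoc]
        exact le_self_add
      · have htj : t j = μ (A j) := ht1 j hj
        have hb : ∀ U : Equiv.Perm X, μ (U '' A i ∩ A j) ≤ t j := fun U => by
          rw [htj]; exact measure_mono inter_subset_right
        refine (ofReal_abs_sub_le (z := t j) (hfinite _ _ _) (hfinite _ _ _)
          ((hb _).trans le_add_self) ((hb _).trans le_add_self)).trans le_add_self
    · have hti : t i = μ (A i) := ht1 i hi
      have hb : ∀ U : Equiv.Perm X, U ∈ AutInf μ → μ (U '' A i ∩ A j) ≤ t i := fun U hU => by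
        rw [hti, ← measure_image hU (hA i)]; exact measure_mono inter_subset_left
      refine (ofReal_abs_sub_le (z := t i) (hfinite _ _ _) (hfinite _ _ _)
        ((hb _ hSn).trans le_add_self) ((hb _ hTn).trans le_add_self)).trans ?_
      exact le_add_self.trans le_self_add
  calc rInf μ A S T' ≤ 8 * η + 3 * η := by
        refine add_le_add hrho ?_
        exact iSup_le fun n => iSup_le fun hn => hweak n hn
    _ = 11 * η := by ring
    _ < ε := h11

end Pool.Agent.Results.MP_bfd36a_an.ConjDense
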